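import Mathlib
import Pool.Agent.H79.MHDis

set_option autoImplicit false

universe u

open Pool.Agent.H79.MH in
theorem Pool.Agent.Results.MP_411355_ag.Disconnected.result (k : Type u) [Field k] :
    ∃ (w : Fin 3 → ℤ) (h : ℤ → ℕ) (U : Ideal (MvPolynomial (Fin 3) (k × k))),
      Represents k w h (k × k) U ∧
      Nonempty (PrimeSpectrum (k × k)) ∧ ¬ ConnectedSpace (PrimeSpectrum (k × k)) := by
  refine ⟨_, _, _, Dis.represents k, inferInstance, fun hc => ?_⟩
  have h1 : IsClopen (PrimeSpectrum.basicOpen ((1, 0) : k × k) : Set (PrimeSpectrum (k × k))) :=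
    PrimeSpectrum.isClopen_iff.2 ⟨(1, 0), by simp [IsIdempotentElem], rfl⟩
  rcases isClopen_iff.1 h1 with h | h
  · have : PrimeSpectrum.comap (RingHom.fst k k) ⊥ ∈
        (PrimeSpectrum.basicOpen ((1, 0) : k × k) : Set (PrimeSpectrum (k × k))) := by
      simp
    rw [h] at this; exact this
  · have : PrimeSpectrum.comap (RingHom.snd k k) ⊥ ∈
        (PrimeSpectrum.basicOpen ((1, 0) : k × k) : Set (PrimeSpectrum (k × k))) := h ▸ trivial
    simp at this
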